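import Pool.Agent.MWLQ.StmtsA
import Pool.Agent.Helper23_MWGN.TLR

/-!
# Squad MWLQ, row TLQ: the crossing of residues in words (helper16)

Adapted from the first part of `Helper37_MWGQ/TLR.lean`.
-/

set_option autoImplicit false

namespace Pool.Agent.MWLQ.H16

open Pool.Agent.Helper14_MV
open Pool.Agent.Helper2_MV (RR)
open Pool.Agent.MWK (pre)
open Pool.Agent.MWGN (nn)
open Pool.Agent.MWGQ (pw Z Gn E0 A0 P0)
open Pool.Agent.MWGN.H23 (st3)

/-- **TLQ** -/
theorem tlq (h2 : TldStmt) (h1 : MWGQ.OlrStmt) (h3 : MWGQ.CntStmt) : TlqStmt := by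
  intro n β hG hE w w' hR c z s hs hc2 hz2 hzs1 hcs1 hcz1
  have sim : ∀ d, w.count d = 1 → w'.count d = 1 := by
    intro d hd
    have := (h3 n β hG w w' hR d).1 (by omega)
    omega
  have cnt : ∀ d, 2 ≤ w.count d → 2 ≤ w'.count d := fun d hd => (h3 n β hG w w' hR d).2.1 hd
  have hcs : c ≠ s := by rintro rfl; omega
  have hzs : z ≠ s := by rintro rfl; omega
  have hcz : c ≠ z := by rintro rfl; omega
  have hs' : w'.count s = 1 := sim s hs
  have hc2' := cnt c hc2
  have hz2' := cnt z hz2
  obtain ⟨-, -, oc⟩ := h1 n β hG hE w w' hR c s hs hcs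
  obtain ⟨-, oz, -⟩ := h1 n β hG hE w w' hR z s hs hzs
  have hcs1' := oc.1 hcs1
  have hzs1' := oz.1 hzs1
  -- the map
  have key3 : RR β (List.replicate (nn w c z) 0 ++ 1 :: (List.replicate (w.count c - nn w c z) 0 ++
      2 :: List.replicate (w.count z - 1) 1)) (List.replicate (nn w' c z) 0 ++
      1 :: (List.replicate (w'.count c - nn w' c z) 0 ++
      2 :: List.replicate (w'.count z - 1) 1)) := by
    have hsub := hR.sub (fun d => if d = c then [0] else if d = z then [1] else
      if d = s then [2] else [])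
    rw [st3 _ hcs hzs hcz (by simp) (by simp [hcz.symm]) (by simp [hcs.symm, hzs.symm])
      (by intro d a1 a2 a3; simp [a1, a2, a3]) hs hzs1 hcs1,
      st3 _ hcs hzs hcz (by simp) (by simp [hcz.symm]) (by simp [hcs.symm, hzs.symm])
      (by intro d a1 a2 a3; simp [a1, a2, a3]) hs' hzs1' hcs1'] at hsub
    exact hsub
  refine h2 n β hG (nn w c z) (w.count z - 1) (nn w' c z) (w'.count c - nn w' c z)
    (w'.count z - 1) (by omega) (by omega) (by omega) ?_
  have e : w.count c - nn w c z = 0 := by omega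
  rw [e] at key3
  exact key3

end Pool.Agent.MWLQ.H16
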